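import Mathlib
import Pool.Agent.H.MP_67c6ba_gt.A

set_option autoImplicit false

open Set Filter Topology TopologicalSpace MeasureTheory
open Cardinal hiding univ
open Pool.Agent.Lib.helper24.Succ Pool.Agent.H.MP_67c6ba_gt

namespace Pool.Agent.H.MP_36bcbe_gt

lemma dual_fin' {d : Type} [Fintype d] (L : AddSubgroup (UnitAddTorus d))
    (hL : IsClosed (L : Set (UnitAddTorus d))) (y : UnitAddTorus d)
    (h : ∀ k : d → ℤ, (∀ x ∈ L, ∑ i, k i • x i = 0) → ∑ i, k i • y i = 0) : y ∈ L := by
  have hc : CompactSpace L := isCompact_iff_compactSpace.1 hL.isCompact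
  let μ : Measure L := Measure.addHaarMeasure ⊤
  have hμ : IsProbabilityMeasure μ := ⟨Measure.addHaarMeasure_self⟩
  have hi : ∀ (f : C(UnitAddTorus d, ℂ)) (z : UnitAddTorus d),
      Integrable (fun x : L => f (z + x)) μ := fun f z =>
    Continuous.integrable_of_hasCompactSupport (by fun_prop) (HasCompactSupport.of_compactSpace _)
  let Λ : UnitAddTorus d → C(UnitAddTorus d, ℂ) →L[ℂ] ℂ := fun z => LinearMap.mkContinuous
    { toFun := fun f => ∫ x : L, f (z + x) ∂μ
      map_add' := fun f g => integral_add (hi f z) (hi g z)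
      map_smul' := fun c f => integral_smul c fun x : L => f (z + x) } 1 fun f => by
        simpa using norm_integral_le_of_norm_le_const (μ := μ)
          (Eventually.of_forall fun x : L => f.norm_coe_le_norm (z + x))
  have hΛ : ∀ z f, Λ z f = ∫ x : L, f (z + x) ∂μ := fun _ _ => rfl
  have hm : ∀ k z, Λ z (UnitAddTorus.mFourier k) =
      UnitAddTorus.mFourier k z * Λ 0 (UnitAddTorus.mFourier k) := fun k z => by
    simp only [hΛ, mF, ← integral_const_mul, Pi.add_apply, smul_add, Finset.sum_add_distrib,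
      AddCircle.toCircle_add, Circle.coe_mul, zero_add]
  have he : Λ y = Λ 0 := by
    refine ContinuousLinearMap.ext_on (s := range UnitAddTorus.mFourier)
      (Submodule.dense_iff_topologicalClosure_eq_top.2 UnitAddTorus.span_mFourier_closure_eq_top) ?_
    rintro _ ⟨k, rfl⟩
    rw [hm]
    by_cases hk : ∀ x ∈ L, ∑ i, k i • x i = 0
    · simp [mF, h k hk]
    · push Not at hk
      obtain ⟨x, hx, hx'⟩ := hk
      have h1 : Λ x (UnitAddTorus.mFourier k) = Λ 0 (UnitAddTorus.mFourier k) := by
        simp only [hΛ, zero_add]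
        exact integral_add_left_eq_self (fun w : L => UnitAddTorus.mFourier k w.1) ⟨x, hx⟩
      have h2 : UnitAddTorus.mFourier k x ≠ 1 := by
        rw [mF]
        intro h3
        exact hx' (AddCircle.injective_toCircle one_ne_zero
          (by rw [AddCircle.toCircle_zero]; exact Subtype.ext h3))
      rw [hm] at h1
      rw [(mul_left_eq_self₀.1 h1).resolve_left h2, mul_zero]
  by_contra hy
  obtain ⟨f, f0, f1, -⟩ := exists_continuous_zero_one_of_isClosed hL
    (hL.preimage (continuous_const.add continuous_id : Continuous fun x => -y + x))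
    (disjoint_left.2 fun x h1 h2 => hy (by simpa using L.sub_mem h1 h2))
  have := congr($he ⟨fun x => (f x : ℂ), by fun_prop⟩)
  have e0 : ∀ x : L, f x = 0 := fun x => f0 x.2
  have e1 : ∀ x : L, f (y + x) = 1 := fun x => f1 (by simp)
  simp [hΛ, e0, e1] at this

lemma dual' {I : Type} (L : AddSubgroup (I → UnitAddCircle)) (y : I → UnitAddCircle)
    (h : ∀ k : I →₀ ℤ, (∀ x ∈ L, Finsupp.linearCombination ℤ x k = 0) →
      Finsupp.linearCombination ℤ y k = 0) : y ∈ closure (L : Set (I → UnitAddCircle)) := by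
  classical
  refine mem_closure_iff.2 fun U hU hy => ?_
  obtain ⟨F, u, hu, hF⟩ := isOpen_pi_iff.1 hU y hy
  let r : (I → UnitAddCircle) →+ UnitAddTorus F :=
    AddMonoidHom.pi fun i => Pi.evalAddMonoidHom _ i.1
  have e : ∀ (k : F → ℤ) (x : I → UnitAddCircle), Finsupp.linearCombination ℤ x
      (Finsupp.embDomain (Function.Embedding.subtype _)
        ((Finsupp.linearEquivFunOnFinite ℤ ℤ F).symm k)) = ∑ i, k i • r x i := fun k x => by
    rw [Finsupp.linearCombination_embDomain,
      Finsupp.linearCombination_eq_fintype_linearCombination_apply,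
      Fintype.linearCombination_apply]
    rfl
  have := dual_fin' (L.map r).topologicalClosure (AddSubgroup.isClosed_topologicalClosure _) (r y)
    fun k hk => e k y ▸ h _ fun x hx =>
      (e k x).trans (hk _ (AddSubgroup.le_topologicalClosure _ ⟨x, hx, rfl⟩))
  obtain ⟨_, h1, x, hx, rfl⟩ := mem_closure_iff.1 this (univ.pi fun i : F => u i)
    (isOpen_set_pi finite_univ fun i _ => (hu i i.2).1) fun i _ => (hu i i.2).2
  exact ⟨x, hF fun i hi => h1 ⟨i, hi⟩ trivial, hx⟩

lemma sepK {I : Type} (G : AddSubgroup (I → UnitAddCircle))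
    (hG : ∀ g ∈ G, g ≠ 0 → {k : I →₀ ℤ | Finsupp.linearCombination ℤ g k = 0}.Countable)
    (K : AddSubgroup G) : SeparableSpace K := by
  rcases subsingleton_or_nontrivial K with h | h
  · infer_instance
  obtain ⟨g, hg⟩ := exists_ne (0 : K)
  have hc := (hG g g.1.2 fun h => hg (Subtype.ext (Subtype.ext h))).to_subtype
  have : ∀ k : I →₀ ℤ, ∃ x : K, Finsupp.linearCombination ℤ x.1.1 k = 0 →
      ∀ y : K, Finsupp.linearCombination ℤ y.1.1 k = 0 := fun k => by
    by_cases h : ∀ y : K, Finsupp.linearCombination ℤ y.1.1 k = 0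
    · exact ⟨0, fun _ => h⟩
    · push Not at h
      obtain ⟨y, hy⟩ := h
      exact ⟨y, fun h => absurd h hy⟩
  choose v hv using this
  let w : Option {k : I →₀ ℤ | Finsupp.linearCombination ℤ g.1.1 k = 0} → K :=
    fun o => o.elim g fun k => v k
  refine ⟨⟨_, countable_range (Finsupp.linearCombination ℤ w),
    (IsInducing.subtypeVal.comp IsInducing.subtypeVal).dense_iff.2 fun y => ?_⟩⟩
  have hw : ∀ o, (w o).1.1 ∈ (Finsupp.linearCombination ℤ w).toAddMonoidHom.range.map
      (G.subtype.comp K.subtype) := fun o => ⟨w o, ⟨Finsupp.single o 1, by simp⟩, rfl⟩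
  exact dual' ((Finsupp.linearCombination ℤ w).toAddMonoidHom.range.map
    (G.subtype.comp K.subtype)) _ fun k hk => hv k (hk _ (hw (some ⟨k, hk _ (hw none)⟩))) y

lemma pseudo {I Y : Type} [TopologicalSpace Y] [CompactSpace Y] (G : Set (I → Y))
    (hG : ∀ S : Set I, S.Countable → ∀ p : I → Y, ∃ g ∈ G, ∀ i ∈ S, g i = p i)
    (f : G → ℝ) (hf : Continuous f) : ∃ C : ℝ, ∀ x, |f x| ≤ C := by
  classical
  have key : ∀ (x : G) (U : Set ℝ), IsOpen U → f x ∈ U → ∃ (F : Finset I) (u : I → Set Y),
      (∀ i ∈ F, IsOpen (u i) ∧ x.1 i ∈ u i) ∧ ∀ y : G, (∀ i ∈ F, y.1 i ∈ u i) → f y ∈ U := by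
    intro x U hU hx
    obtain ⟨V, hV, he⟩ := isOpen_induced_iff.1 (hU.preimage hf)
    obtain ⟨F, u, hu, hF⟩ := isOpen_pi_iff.1 hV x.1 (he.ge hx)
    exact ⟨F, u, hu, fun y hy => he.le (hF hy)⟩
  by_contra h
  push Not at h
  choose x hx using fun n : ℕ => h n
  choose F u hu hF using fun n : ℕ => key (x n) {r | (n : ℝ) < |r|}
    (isOpen_lt continuous_const continuous_abs) (hx n)
  obtain ⟨p, -, hp⟩ := isCompact_univ.exists_mapClusterPt (f := atTop) (u := fun n => (x n).1)
    (by simp)
  obtain ⟨U, hU, hU'⟩ := mapClusterPt_iff_ultrafilter.1 hp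
  have hS : (⋃ n, (F n : Set I)).Countable := countable_iUnion fun n => (F n).countable_toSet
  obtain ⟨g, hg, hg'⟩ := hG _ hS p
  obtain ⟨E, v, hv, hE⟩ := key ⟨g, hg⟩ {r | |r| < |f ⟨g, hg⟩| + 1}
    (isOpen_lt continuous_abs continuous_const) (lt_add_one |f ⟨g, hg⟩|)
  have h1 : ∀ᶠ n in U, ∀ i ∈ E, i ∈ ⋃ n, (F n : Set I) → (x n).1 i ∈ v i :=
    (eventually_all_finset E).2 fun i hi => by
      by_cases h : i ∈ ⋃ n, (F n : Set I)
      · filter_upwards [(tendsto_pi_nhds.1 hU' i).eventually
          ((hv i hi).1.mem_nhds (hg' i h ▸ (hv i hi).2))] with n hn _ using hn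
      · exact Eventually.of_forall fun _ h' => absurd h' h
  obtain ⟨n, h2, h3⟩ := (h1.and (hU (tendsto_natCast_atTop_atTop.eventually_ge_atTop
    (|f ⟨g, hg⟩| + 1)))).exists
  obtain ⟨y, hy, hy'⟩ := hG _ (hS.union E.countable_toSet)
    ((⋃ n, (F n : Set I)).piecewise (x n).1 g)
  have h4 := hF n ⟨y, hy⟩ fun i hi => by
    have : i ∈ ⋃ n, (F n : Set I) := mem_iUnion.2 ⟨n, hi⟩
    rw [Subtype.coe_mk, hy' i (Or.inl this), piecewise_eq_of_mem _ _ _ this]
    exact (hu n i hi).2
  have h5 := hE ⟨y, hy⟩ fun i hi => by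
    rw [Subtype.coe_mk, hy' i (Or.inr hi)]
    by_cases h : i ∈ ⋃ n, (F n : Set I)
    · rw [piecewise_eq_of_mem _ _ _ h]; exact h2 i hi h
    · rw [piecewise_eq_of_notMem _ _ _ h]; exact (hv i hi).2
  exact absurd (h4.trans h5) (not_lt.2 h3)

lemma sigma {Y : Type} [AddCommGroup Y] [TopologicalSpace Y] [IsTopologicalAddGroup Y]
    {K : Set Y} (hK : IsCompact K) : IsSigmaCompact (AddSubgroup.closure K : Set Y) := by
  let C : ℕ → Set Y := fun n => Nat.rec {0} (fun _ C => image2 (· + ·) (K ∪ -K) C) n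
  refine ⟨C, fun n => ?_, Subset.antisymm (iUnion_subset fun n => ?_) fun y hy => ?_⟩
  · induction n with
    | zero => exact isCompact_singleton
    | succ n ih => exact (hK.union hK.neg).add ih
  · induction n with
    | zero => exact singleton_subset_iff.2 (zero_mem _)
    | succ n ih =>
      rintro _ ⟨a, ha, b, hb, rfl⟩
      exact add_mem (ha.elim (AddSubgroup.subset_closure ·)
        fun h => neg_mem_iff.1 (AddSubgroup.subset_closure h)) (ih hb)
  · induction hy using AddSubgroup.closure_induction_left with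
    | zero => exact mem_iUnion.2 ⟨0, rfl⟩
    | add_left x hx y _ ih =>
      obtain ⟨n, hn⟩ := mem_iUnion.1 ih
      exact mem_iUnion.2 ⟨n + 1, x, Or.inl hx, y, hn, rfl⟩
    | neg_add_cancel x hx y _ ih =>
      obtain ⟨n, hn⟩ := mem_iUnion.1 ih
      exact mem_iUnion.2 ⟨n + 1, -x, Or.inr (by simpa using hx), y, hn, rfl⟩

open Classical in
lemma indep' (J : Type) (hJ : #J ≤ continuum) (ε : J → ℝ) (hε : ∀ j, 0 < ε j) :
    ∃ (b : J → ℝ) (l : J → ℝ →ₗ[ℤ] ℝ), (∀ j j', l j (b j') = if j' = j then 1 else 0) ∧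
      (∀ j, l j 1 = 0) ∧ (∀ j, |b j| ≤ ε j) ∧ ∀ x, {j | l j x ≠ 0}.Finite := by
  let B := Module.Basis.ofVectorSpace ℚ ℝ
  have hB := B.mk_eq_rank''
  rw [Real.rank_rat_real] at hB
  obtain ⟨e⟩ : Nonempty (Option J ↪ _) := (le_def _ _).1 (le_of_le_of_eq (by
    rw [mk_option]
    exact add_le_of_le aleph0_le_continuum hJ (one_le_aleph0.trans aleph0_le_continuum)) hB.symm)
  have : ∀ j, ∃ q : ℚ, 0 < q ∧ q * |B (e (some j)) / B (e none)| ≤ ε j := fun j => by
    obtain ⟨q, h1, h2⟩ := exists_rat_btwn (div_pos (hε j) (abs_pos.2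
      (div_ne_zero (B.ne_zero (e (some j))) (B.ne_zero (e none)))))
    exact ⟨q, by exact_mod_cast h1, (le_div_iff₀ (abs_pos.2
      (div_ne_zero (B.ne_zero _) (B.ne_zero _)))).1 h2.le⟩
  choose q h1 h2 using this
  refine ⟨fun j => q j * (B (e (some j)) / B (e none)), fun j => AddMonoidHom.toIntLinearMap
    ⟨⟨fun x => (B.coord (e (some j)) (x * B (e none)) / q j : ℚ), by simp⟩, fun x y => by
      simp [add_mul, add_div]⟩, fun j j' => ?_, fun j => ?_, fun j => ?_, fun x => ?_⟩
  · simp only [AddMonoidHom.coe_toIntLinearMap, AddMonoidHom.coe_mk, ZeroHom.coe_mk]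
    rw [mul_assoc, div_mul_cancel₀ _ (B.ne_zero _), ← Rat.smul_def, map_smul]
    by_cases h : j' = j <;> simp [h, (h1 j).ne']
  · simp
  · rw [abs_mul, abs_of_pos (by exact_mod_cast h1 j)]
    exact h2 j
  · refine ((B.repr (x * B (e none))).support.finite_toSet.preimage
      (e.injective.comp (Option.some_injective _)).injOn).subset fun j hj => ?_
    simp at hj ⊢
    exact hj.1

lemma count_supp {I : Type} {S : Set I} (hS : S.Countable) :
    {k : I →₀ ℤ | ∀ i ∉ S, k i = 0}.Countable := by
  have := hS.to_subtype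
  refine (countable_range fun m : S →₀ ℤ => m.embDomain (Function.Embedding.subtype _)).mono ?_
  intro n hn
  refine ⟨n.subtypeDomain _, ?_⟩
  ext g
  by_cases h : g ∈ S
  · exact Finsupp.embDomain_apply_self (Function.Embedding.subtype _) _ ⟨g, h⟩
  · rw [Finsupp.embDomain_of_notMem_range _ _ _ (by simpa using h), hn g h]

abbrev I : Type := W ℵ₀ × Bool
abbrev Γ : Type := W ℵ₀ ⊕ Bool × (ℕ → I × ℝ)

open Classical in
noncomputable def a (b : Γ × I → ℝ) (c : Bool) : Γ → I → ℝ
  | Sum.inl x, i => if i.1 ≤ x then (if i = (x, true) ∧ c = true then 1 / 2 else 0)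
      else b (Sum.inl x, i)
  | Sum.inr j, i => if h : ∃ n, (j.2 n).1 = i then (j.2 h.choose).2 else b (Sum.inr j, i)

lemma a_count (b : Γ × I → ℝ) (c : Bool) (g : Γ) : {i | a b c g i ≠ b (g, i)}.Countable := by
  rcases g with x | j
  · refine ((le_aleph0_iff_set_countable.1 (card_Iic le_rfl x)).prod
      (countable_univ (α := Bool))).mono ?_
    refine fun i hi => ⟨?_, trivial⟩
    by_contra h
    exact hi (if_neg h)
  · refine (countable_range fun n => (j.2 n).1).mono fun i hi => ?_
    by_contra h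
    exact hi (dif_neg h)

noncomputable def R (b : Γ × I → ℝ) (c : Bool) (n : Γ →₀ ℤ) (i : I) : ℝ :=
  Finsupp.linearCombination ℤ (fun g => a b c g i) n

noncomputable def Φ (b : Γ × I → ℝ) (c : Bool) : (Γ →₀ ℤ) →+ (I → UnitAddCircle) where
  toFun n i := R b c n i
  map_zero' := by ext i; simp [R]
  map_add' m n := by ext i; simp [R]

def M (c : Bool) : AddSubgroup (Γ →₀ ℤ) where
  carrier := {m | ∀ j, m (Sum.inr (!c, j)) = 0}
  add_mem' hx hy j := by simp [hx j, hy j]
  zero_mem' _ := rfl
  neg_mem' hx j := by simp [hx j]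

theorem main : ∃ G H : AddSubgroup (I → UnitAddCircle),
    (∀ f : G → ℝ, Continuous f → ∃ C : ℝ, ∀ x, |f x| ≤ C) ∧
    (∀ f : H → ℝ, Continuous f → ∃ C : ℝ, ∀ x, |f x| ≤ C) ∧
    (∀ K : AddSubgroup G, SeparableSpace K) ∧ (∀ K : AddSubgroup H, SeparableSpace K) ∧
    ∃ S : AddSubgroup (G × H), IsClosed (S : Set (G × H)) ∧ IsSigmaCompact (S : Set (G × H)) ∧
      ¬ SeparableSpace S := by
  classical
  have h0 := aleph0_le_continuum
  have hW : #(W ℵ₀) ≤ continuum := by
    rw [mk_W]; exact Order.succ_le_of_lt aleph0_lt_continuum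
  have hb : #Bool ≤ continuum := mk_le_aleph0.trans h0
  have hI : #I ≤ continuum := by
    rw [mk_prod, lift_id, lift_id]; exact mul_le_of_le h0 hW hb
  have : ∀ y : W ℵ₀, ∃ e : W ℵ₀ → ℕ, InjOn e (Iio y) := fun y =>
    countable_iff_exists_injOn.1 (le_aleph0_iff_set_countable.1 (card_Iio y))
  choose e he using this
  obtain ⟨b, l, h1, h3, h4, h5⟩ := indep' (Γ × I) (by
    rw [mk_prod, lift_id, lift_id, mk_sum, lift_id, lift_id, mk_prod, lift_id, lift_id]
    refine mul_le_of_le h0 (add_le_of_le h0 hW (mul_le_of_le h0 hb ?_)) hI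
    rw [mk_arrow, lift_id, lift_id, mk_nat, ← continuum_power_aleph0, mk_prod, lift_id, lift_id]
    exact power_le_power_right (mul_le_of_le h0 hI mk_real.le))
    (fun j => j.1.elim (fun x => 1 / ((e j.2.1 x : ℝ) + 1)) fun _ => 1) (by
      rintro ⟨x | j, i⟩
      · exact Nat.one_div_pos_of_nat
      · exact one_pos)
  have hz : ∀ j (z : ℤ), l j z = 0 := fun j z => by
    rw [← zsmul_one, map_zsmul, h3, smul_zero]
  have key : ∀ c (m : Γ →₀ ℤ) g, ∃ S : Set I, S.Countable ∧ ∀ i ∉ S, ∀ i',
      l (g, i) (R b c m i') = if i' = i then (m g : ℝ) else 0 := by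
    intro c m g
    refine ⟨{i | a b c g i ≠ b (g, i)} ∪ ⋃ g' ∈ (m.support : Set Γ),
      ⋃ i' ∈ {i | a b c g' i ≠ b (g', i)}, {i | l (g, i) (a b c g' i') ≠ 0},
      (a_count b c g).union (m.support.countable_toSet.biUnion fun g' _ =>
        (a_count b c g').biUnion fun i' _ => ((h5 _).preimage
          (Prod.mk_right_injective g).injOn).countable), fun i hi i' => ?_⟩
    simp only [mem_union, mem_iUnion, not_or, not_exists, mem_ofPred_eq, not_not] at hi
    have : ∀ g' ∈ m.support, l (g, i) (a b c g' i') = if g' = g ∧ i' = i then 1 else 0 := by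
      intro g' hg'
      by_cases h : a b c g' i' = b (g', i')
      · simp [h, h1]
      · rw [hi.2 g' hg' i' h, if_neg]
        rintro ⟨rfl, rfl⟩
        exact h hi.1
    rw [R, Finsupp.apply_linearCombination, Finsupp.linearCombination_apply, Finsupp.sum]
    refine (Finset.sum_congr rfl fun g' hg' => congrArg (m g' • ·) (this g' hg')).trans ?_
    by_cases h : i' = i
    · simp [h]
      intro h'; simp [h']
    · simp [h]
  let G : Bool → AddSubgroup (I → UnitAddCircle) := fun c => (M c).map (Φ b c)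
  have hps : ∀ c, ∀ f : G c → ℝ, Continuous f → ∃ C : ℝ, ∀ x, |f x| ≤ C := fun c =>
    pseudo _ fun S hS p => by
      obtain ⟨s, hs⟩ := (hS.insert (Classical.arbitrary I)).exists_eq_range (insert_nonempty _ _)
      choose r hr using fun i => QuotientAddGroup.mk_surjective (p i)
      refine ⟨_, ⟨Finsupp.single (Sum.inr (c, fun n => (s n, r (s n)))) 1, fun j => by simp,
        rfl⟩, fun i hi => ?_⟩
      have : ∃ n, s n = i := (hs ▸ mem_insert_of_mem _ hi : i ∈ range s)
      simp [Φ, R, a, this, this.choose_spec, hr]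
  have hsep : ∀ c, ∀ K : AddSubgroup (G c), SeparableSpace K := fun c => sepK _ (by
    rintro _ ⟨m, -, rfl⟩ hm
    obtain ⟨g, hg⟩ : ∃ g, m g ≠ 0 := by
      by_contra h
      push Not at h
      exact hm (by rw [(Finsupp.ext h : m = 0), map_zero])
    obtain ⟨S, hS, hS'⟩ := key c m g
    refine (count_supp hS).mono ?_
    intro k h i hi
    have e1 : ((Finsupp.linearCombination ℤ (R b c m) k : ℝ) : UnitAddCircle) = 0 := by
      rw [← h]
      exact Finsupp.apply_linearCombination ℤ (QuotientAddGroup.mk' _).toIntLinearMap _ _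
    obtain ⟨z, hz'⟩ := (AddCircle.coe_eq_zero_iff _).1 e1
    have := congrArg (l (g, i)) hz'
    rw [zsmul_one, hz, Finsupp.apply_linearCombination, lc k {i} fun i' hi' => by
      simp at hi'; simp [hS' i hi, hi']] at this
    simpa [hS' i hi, hg] using this)
  have hm : ∀ c x, Φ b c (Finsupp.single (Sum.inl x) 1) ∈ G c := fun c x =>
    ⟨_, fun j => by simp, rfl⟩
  let v : W ℵ₀ → G true × G false := fun x => (⟨_, hm _ x⟩, ⟨_, hm _ x⟩)
  let S : AddSubgroup (G true × G false) :=
    { carrier := {y | ∀ x, y.1.1 (x, false) = y.2.1 (x, false)}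
      add_mem' := fun hx hy c => by simp [hx c, hy c]
      zero_mem' := fun c => rfl
      neg_mem' := fun hx c => by simp [hx c] }
  have hv : ∀ x, v x ∈ S := fun x y => by simp [v, Φ, R, a]
  have hlc : ∀ n : W ℵ₀ →₀ ℤ,
      (Finsupp.linearCombination ℤ v n).1.1 = Φ b true (n.embDomain Function.Embedding.inl) ∧
      (Finsupp.linearCombination ℤ v n).2.1 = Φ b false (n.embDomain Function.Embedding.inl) := by
    intro n
    induction n using Finsupp.induction_linear with
    | zero => simp
    | add f g hf hg => simp only [map_add, Finsupp.embDomain_add, ← hf.1, ← hf.2, ← hg.1, ← hg.2]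
                       exact ⟨rfl, rfl⟩
    | single x k => simp [v, ← map_zsmul]
  have hS : ∀ y ∈ S, ∃ n : W ℵ₀ →₀ ℤ, Finsupp.linearCombination ℤ v n = y := by
    rintro ⟨⟨_, m, hm1, rfl⟩, ⟨_, m', hm2, rfl⟩⟩ hy
    have e1 : ∀ x, R b false m' (x, false) = R b true m' (x, false) := fun x => by
      unfold R
      congr 2
      ext (g | g) <;> simp [a]
    obtain rfl : m = m' := by
      ext g
      obtain ⟨T, hT, hT'⟩ := key true (m - m') g
      obtain ⟨x, hx⟩ := bdd_countable le_rfl _ (hT.image Prod.fst)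
      obtain ⟨z, hz'⟩ := (AddCircle.coe_eq_zero_iff (1 : ℝ)).1
        ((AddCircle.coe_sub _ _ _).trans (sub_eq_zero.2 (hy x)))
      have := hT' (x, false) (fun h => lt_irrefl _ (hx _ ⟨_, h, rfl⟩)) (x, false)
      rw [R, map_sub, ← R, ← R, ← e1, ← hz', zsmul_one, hz, if_pos rfl] at this
      simpa [sub_eq_zero] using (Int.cast_eq_zero.1 this.symm)
    obtain ⟨n, rfl⟩ : ∃ n : W ℵ₀ →₀ ℤ, m = n.embDomain Function.Embedding.inl := by
      refine ⟨m.comapDomain Sum.inl Sum.inl_injective.injOn, ?_⟩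
      ext (x | ⟨_ | _, j⟩)
      · exact (Finsupp.embDomain_apply_self Function.Embedding.inl
          (m.comapDomain Sum.inl Sum.inl_injective.injOn) x).symm
      · rw [Finsupp.embDomain_of_notMem_range _ _ _ (by simp)]; exact hm1 j
      · rw [Finsupp.embDomain_of_notMem_range _ _ _ (by simp)]; exact hm2 j
    exact ⟨n, Prod.ext (Subtype.ext (hlc n).1) (Subtype.ext (hlc n).2)⟩
  have hcont : ∀ i i', IsClosed {y : G true × G false | y.1.1 i = y.2.1 i'} := fun i i' =>
    isClosed_eq ((continuous_apply _).comp (continuous_subtype_val.comp continuous_fst))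
      ((continuous_apply _).comp (continuous_subtype_val.comp continuous_snd))
  refine ⟨G true, G false, hps _, hps _, hsep _, hsep _, S, ?_, ?_, fun ⟨D, hD, hd⟩ => ?_⟩
  · have := isClosed_iInter fun x => hcont (x, false) (x, false)
    rwa [← ofPred_forall] at this
  · have ht : ∀ c, Tendsto (fun x => Φ b c (Finsupp.single (Sum.inl x) 1)) cofinite (𝓝 0) := by
      refine fun c => tendsto_pi_nhds.2 fun i => ?_
      have : Tendsto (fun x => a b c (Sum.inl x) i) cofinite (𝓝 0) := by
        refine Metric.tendsto_nhds.2 fun ε hε => ?_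
        obtain ⟨N, hN⟩ := exists_nat_one_div_lt hε
        have : (Iio i.1 ∩ e i.1 ⁻¹' Iic N).Finite := Finite.of_finite_image
          ((finite_Iic N).subset (image_subset_iff.2 inter_subset_right))
          ((he i.1).mono inter_subset_left)
        filter_upwards [(this.insert i.1).compl_mem_cofinite] with x hx
        simp only [mem_compl_iff, mem_insert_iff, mem_inter_iff, not_or, not_and, mem_preimage,
          mem_Iic, not_le] at hx
        by_cases h : i.1 ≤ x
        · have : i ≠ (x, true) := fun h' => hx.1 (by rw [h'])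
          simpa [a, h, this] using hε
        · rw [dist_zero_right, a, if_neg h]
          refine ((h4 _).trans ?_).trans_lt hN
          exact Nat.one_div_le_one_div (hx.2 (not_le.1 h)).le
      simpa [Φ, R, Function.comp_def] using
        ((AddCircle.continuous_mk' (1 : ℝ)).tendsto _).comp this
    have : S = AddSubgroup.closure (insert 0 (range v)) := le_antisymm (fun y hy => by
      obtain ⟨n, rfl⟩ := hS y hy
      exact AddSubgroup.sum_mem _ fun x _ => AddSubgroup.zsmul_mem _
        (AddSubgroup.subset_closure (mem_insert_of_mem _ (mem_range_self x))) _)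
      ((AddSubgroup.closure_le _).2 (insert_subset S.zero_mem (range_subset_iff.2 hv)))
    rw [this]
    exact sigma (Tendsto.isCompact_insert_range_of_cofinite
      ((tendsto_subtype_rng.2 (ht true)).prodMk_nhds (tendsto_subtype_rng.2 (ht false))))
  · choose n hn using fun y : S => hS y.1 y.2
    obtain ⟨y, hy⟩ := bdd_countable le_rfl (⋃ d ∈ D, ((n d).support : Set (W ℵ₀)))
      (hD.biUnion fun d _ => Finset.countable_toSet _)
    let S' : AddSubgroup (G true × G false) :=
      { carrier := {w | w.1.1 (y, true) = w.2.1 (y, true)}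
        add_mem' := fun hx hy => by simp [hx.out, hy.out]
        zero_mem' := rfl
        neg_mem' := fun hx => by simp [hx.out] }
    have := closure_minimal (s := D) (t := Subtype.val ⁻¹' (S' : Set _)) (fun d hd' => by
      rw [mem_preimage, ← hn]
      refine sum_mem fun x hx => zsmul_mem ?_ _
      simp [S', v, Φ, R, a, (hy x (mem_biUnion hd' hx)).not_ge])
      ((hcont _ _).preimage continuous_subtype_val) (hd ⟨v y, hv y⟩)
    simp only [S', v, Φ, R, a, mem_preimage, AddSubgroup.coe_set_mk, AddSubmonoid.coe_set_mk,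
      AddSubsemigroup.coe_set_mk, mem_ofPred_eq, AddMonoidHom.coe_mk, ZeroHom.coe_mk,
      Finsupp.linearCombination_single, le_refl, if_true, one_smul, and_self, Bool.false_eq_true,
      and_false, if_false] at this
    obtain ⟨z, hz⟩ := (AddCircle.coe_eq_zero_iff (1 : ℝ)).1 this
    have : ((2 * z : ℤ) : ℝ) = (1 : ℤ) := by push_cast; rw [zsmul_one] at hz; linarith
    have := Int.cast_injective this
    omega

end Pool.Agent.H.MP_36bcbe_gt
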